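import Mathlib

/-!
Chains of subgroups for difference operators, and the killing calculus.
-/

namespace Pool.Agent.BBG

open Subgroup
open scoped commutatorElement

section Endo
variable {P : Type*} [Group P]

/-- The subgroup of elements that an endomorphism fixes modulo a normal subgroup. -/
def fixMod (N : Subgroup P) [N.Normal] (t : P →* P) : Subgroup P where
  carrier := {x | x⁻¹ * t x ∈ N}
  one_mem' := by simp
  mul_mem' := by
    intro a b ha hb
    simp only [Set.mem_ofPred_eq] at *
    have h1 : b⁻¹ * (a⁻¹ * t a) * b ∈ N := by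
      have := (inferInstance : N.Normal).conj_mem _ ha b⁻¹
      simpa using this
    have h2 := N.mul_mem h1 hb
    have h3 : (a * b)⁻¹ * t (a * b) = b⁻¹ * (a⁻¹ * t a) * b * (b⁻¹ * t b) := by
      rw [map_mul]; group
    rw [h3]; exact h2
  inv_mem' := by
    intro a ha
    simp only [Set.mem_ofPred_eq] at *
    have h1 : a * (a⁻¹ * t a)⁻¹ * a⁻¹ ∈ N :=
      (inferInstance : N.Normal).conj_mem _ (N.inv_mem ha) a
    have h3 : (a⁻¹)⁻¹ * t a⁻¹ = a * (a⁻¹ * t a)⁻¹ * a⁻¹ := by
      rw [map_inv]; group
    rw [h3]; exact h1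

lemma mem_fixMod {N : Subgroup P} [N.Normal] {t : P →* P} {x : P} :
    x ∈ fixMod N t ↔ x⁻¹ * t x ∈ N := Iff.rfl

lemma comm_lcs_one_le (L : Subgroup P) [L.Normal] (j : ℕ) :
    ⁅L.lowerCentralSeries 1, L.lowerCentralSeries j⁆ ≤ L.lowerCentralSeries (j + 2) := by
  set N := L.lowerCentralSeries (j + 2) with hN
  let q := QuotientGroup.mk' N
  have hker : q.ker = N := QuotientGroup.ker_mk' N
  have key : ⁅⁅L.map q, L.map q⁆, (L.lowerCentralSeries j).map q⁆ = ⊥ := by
    have hz : ⁅⁅(L.lowerCentralSeries j).map q, L.map q⁆, L.map q⁆ = ⊥ := by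
      rw [← map_commutator, ← map_commutator, ← Subgroup.lowerCentralSeries_succ,
        ← Subgroup.lowerCentralSeries_succ]
      rw [Subgroup.map_eq_bot_iff, hker]
    apply commutator_commutator_eq_bot_of_rotate
    · rw [commutator_comm (L.map q)]
      exact hz
    · exact hz
  rw [← hker, ← Subgroup.map_eq_bot_iff, map_commutator]
  simpa [map_commutator] using key

lemma endo_lcs (L : Subgroup P) [L.Normal] (t : P →* P)
    (h1 : ∀ x ∈ L, x⁻¹ * t x ∈ L.lowerCentralSeries 1) :
    ∀ j, ∀ x ∈ L.lowerCentralSeries j, x⁻¹ * t x ∈ L.lowerCentralSeries (j + 1) := by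
  intro j
  induction j with
  | zero => simpa using h1
  | succ j ih =>
    have hle : L.lowerCentralSeries (j + 1) ≤ fixMod (L.lowerCentralSeries (j + 2)) t := by
      rw [Subgroup.lowerCentralSeries_succ L j, commutator_le]
      intro x hx y hy
      rw [mem_fixMod]
      have hx' := ih x hx
      have hy' := h1 y hy
      set N := L.lowerCentralSeries (j + 2) with hN
      let q := QuotientGroup.mk' N
      have hker : q.ker = N := QuotientGroup.ker_mk' N
      have hcomm : ∀ a b : P, ⁅a, b⁆ ∈ N → Commute (q a) (q b) := by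
        intro a b hab
        rw [← commutatorElement_eq_one_iff_commute, ← map_commutatorElement]
        rwa [← MonoidHom.mem_ker, hker]
      have hanti := L.lowerCentralSeries_antitone
      have hL : ∀ i, L.lowerCentralSeries i ≤ L := fun i => L.lowerCentralSeries_le_self i
      have htx : t x = x * (x⁻¹ * t x) := by group
      have hty : t y = y * (y⁻¹ * t y) := by group
      set e := x⁻¹ * t x with he
      set d := y⁻¹ * t y with hd
      have hdL : d ∈ L := hL 1 hy'
      have c1 : Commute (q e) (q (y * d)) := by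
        apply hcomm
        exact commutator_mem_commutator hx' (L.mul_mem hy hdL)
      have c2 : Commute (q d) (q x) := by
        apply hcomm
        exact comm_lcs_one_le L j (commutator_mem_commutator hy' hx)
      rw [← hker, MonoidHom.mem_ker, map_mul, map_inv, map_commutatorElement,
        map_commutatorElement, map_commutatorElement, htx, hty]
      have e1 : ⁅q (x * e), q (y * d)⁆ = ⁅q x, q y⁆ := by
        rw [commutatorElement_def, commutatorElement_def]
        have s1 : q (x * e) * q (y * d) * (q (x * e))⁻¹ = q x * q y * q d * (q x)⁻¹ := by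
          calc q (x * e) * q (y * d) * (q (x * e))⁻¹
              = q x * (q e * q (y * d)) * (q e)⁻¹ * (q x)⁻¹ := by
                rw [map_mul q x e]; group
            _ = q x * (q (y * d) * q e) * (q e)⁻¹ * (q x)⁻¹ := by rw [c1.eq]
            _ = q x * q y * q d * (q x)⁻¹ := by rw [map_mul q y d]; group
        rw [s1]
        have s2 : q d * (q x)⁻¹ = (q x)⁻¹ * q d := (c2.inv_right).eq
        calc q x * q y * q d * (q x)⁻¹ * (q (y * d))⁻¹
            = q x * q y * (q d * (q x)⁻¹) * (q (y * d))⁻¹ := by group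
          _ = q x * q y * ((q x)⁻¹ * q d) * (q (y * d))⁻¹ := by rw [s2]
          _ = q x * q y * (q x)⁻¹ * (q y)⁻¹ := by rw [map_mul q y d]; group
      rw [e1, inv_mul_cancel]
    intro x hx
    exact hle hx

end Endo

section Chain
variable {P : Type*} [Group P] {ι : Type*}

/-- `Chain σ i K`: there is a chain `⊥ = K₀ ≤ K₁ ≤ … ≤ Kᵢ = K` of subgroups such that the
multiplicative difference operators of the endomorphisms `σ s` map `Kⱼ₊₁` into `Kⱼ`. -/
inductive Chain (σ : ι → P →* P) : ℕ → Subgroup P → Prop
  | bot : Chain σ 0 ⊥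
  | step {i : ℕ} {H K : Subgroup P} : Chain σ i H → H ≤ K →
      (∀ y ∈ K, ∀ s, y⁻¹ * σ s y ∈ H) → Chain σ (i + 1) K

variable {σ : ι → P →* P}

lemma Chain.shift_mem {i : ℕ} {K : Subgroup P} (h : Chain σ i K) :
    ∀ y ∈ K, ∀ s, σ s y ∈ K := by
  cases h with
  | bot => intro y hy s; rw [mem_bot] at hy; subst hy; simp
  | step h1 h2 h3 =>
    intro y hy s
    have := K.mul_mem hy (h2 (h3 y hy s))
    simpa using this

/-- The main chain: if `P` is nilpotent of class at most `c`, generated by a subgroup `C` of
elements fixed by all `σ s` together with elements whose differences lie in `C`, then there is a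
chain of length `c + 2` ending in `P`. -/
theorem chain_top (c : ℕ) (hc : (⊤ : Subgroup P).lowerCentralSeries c = ⊥)
    (C : Subgroup P) (hC : ∀ x ∈ C, ∀ s, σ s x = x)
    (X : Set P) (hX : ∀ x ∈ X, ∀ s, x⁻¹ * σ s x ∈ C)
    (hgen : closure ((C : Set P) ∪ X) = ⊤) :
    Chain σ (c + 2) ⊤ := by
  set L : Subgroup P := normalClosure (C : Set P) with hLdef
  have hCL : C ≤ L := le_normalClosure
  -- differences of everything lie in `L`
  have d0 : ∀ x : P, ∀ s, x⁻¹ * σ s x ∈ L := by
    intro x s
    have : (⊤ : Subgroup P) ≤ fixMod L (σ s) := by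
      rw [← hgen, closure_le]
      rintro y (hy | hy)
      · change y⁻¹ * σ s y ∈ L
        rw [hC y hy s, inv_mul_cancel]; exact L.one_mem
      · exact hCL (hX y hy s)
    exact this (mem_top x)
  -- differences of `L` lie in `[L, L]`
  have d1 : ∀ s, ∀ x ∈ L, x⁻¹ * σ s x ∈ L.lowerCentralSeries 1 := by
    intro s
    have hle : L ≤ fixMod (L.lowerCentralSeries 1) (σ s) := by
      suffices hcc : closure (Group.conjugatesOfSet (C : Set P)) ≤
          fixMod (L.lowerCentralSeries 1) (σ s) from hcc
      rw [closure_le]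
      intro x hx
      rw [Group.mem_conjugatesOfSet_iff] at hx
      obtain ⟨a, ha, hax⟩ := hx
      rw [isConj_iff] at hax
      obtain ⟨h, rfl⟩ := hax
      change (h * a * h⁻¹)⁻¹ * σ s (h * a * h⁻¹) ∈ L.lowerCentralSeries 1
      have hd := d0 h s
      set d := h⁻¹ * σ s h with hddef
      have hsh : σ s h = h * d := by rw [hddef]; group
      rw [map_mul, map_mul, map_inv, hC a ha s, hsh]
      have : (h * a * h⁻¹)⁻¹ * (h * d * a * (h * d)⁻¹) = h * ⁅a⁻¹, d⁆ * h⁻¹ := by
        rw [commutatorElement_def]; group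
      rw [this]
      apply (inferInstance : (L.lowerCentralSeries 1).Normal).conj_mem
      exact commutator_mem_commutator (L.inv_mem (hCL ha)) hd
    exact fun x hx => hle hx
  have dj : ∀ j s, ∀ x ∈ L.lowerCentralSeries j, x⁻¹ * σ s x ∈ L.lowerCentralSeries (j + 1) :=
    fun j s => endo_lcs L (σ s) (d1 s) j
  -- the chain
  let T : ℕ → Subgroup P := fun j => L ⊓ ⨅ s, fixMod (L.lowerCentralSeries j) (σ s)
  have hT : ∀ j x, x ∈ T j ↔ x ∈ L ∧ ∀ s, x⁻¹ * σ s x ∈ L.lowerCentralSeries j := by
    intro j x
    simp only [T, mem_inf, mem_iInf, mem_fixMod]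
  have hlcs : L.lowerCentralSeries c = ⊥ := by
    rw [eq_bot_iff, ← hc]
    exact lowerCentralSeries_mono (G := P) c le_top
  have hchain : ∀ i, i ≤ c → Chain σ (i + 1) (T (c - i)) := by
    intro i
    induction i with
    | zero =>
      intro _
      refine Chain.step Chain.bot bot_le ?_
      intro y hy s
      rw [hT] at hy
      have := hy.2 s
      rwa [Nat.sub_zero, hlcs] at this
    | succ i ih =>
      intro hi
      have h1 := ih (by omega)
      refine Chain.step h1 ?_ ?_
      · intro x hx
        rw [hT] at hx ⊢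
        refine ⟨hx.1, fun s => ?_⟩
        exact L.lowerCentralSeries_antitone (by omega) (hx.2 s)
      · intro y hy s
        rw [hT] at hy ⊢
        have h2 := hy.2 s
        refine ⟨L.lowerCentralSeries_le_self _ h2, fun s' => ?_⟩
        have h3 := dj _ s' _ h2
        have h4 : c - (i + 1) + 1 = c - i := by omega
        rwa [h4] at h3
  have h0 := hchain c le_rfl
  rw [Nat.sub_self] at h0
  refine Chain.step h0 le_top ?_
  intro y _ s
  rw [hT]
  refine ⟨d0 y s, fun s' => ?_⟩
  exact L.lowerCentralSeries_antitone (Nat.zero_le 1) (d1 s' _ (d0 y s))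

end Chain

end Pool.Agent.BBG
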