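import Pool.Agent.BBG.Kill

/-!
Evaluation: the killing calculus for functions on a group with a generating set.
-/

namespace Pool.Agent.BBG

open Subgroup

/-- Products of at most `N` elements of `S`. -/
def ball {Γ : Type*} [Group Γ] (S : Set Γ) (N : ℕ) : Set Γ :=
  {g | ∃ l : List Γ, l.length ≤ N ∧ (∀ x ∈ l, x ∈ S) ∧ l.prod = g}

section Ball
variable {Γ : Type*} [Group Γ] {S : Set Γ}

lemma one_mem_ball (N : ℕ) : (1 : Γ) ∈ ball S N := ⟨[], by simp, by simp, by simp⟩

lemma ball_mono {M N : ℕ} (h : M ≤ N) : ball S M ⊆ ball S N := by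
  rintro g ⟨l, hl, h1, h2⟩
  exact ⟨l, hl.trans h, h1, h2⟩

lemma mul_mem_ball {N : ℕ} {g s : Γ} (hg : g ∈ ball S N) (hs : s ∈ S) :
    g * s ∈ ball S (N + 1) := by
  obtain ⟨l, hl, h1, rfl⟩ := hg
  refine ⟨l ++ [s], by simpa using hl, ?_, by simp⟩
  intro x hx
  rw [List.mem_append, List.mem_singleton] at hx
  rcases hx with hx | rfl
  · exact h1 x hx
  · exact hs

/-- A function invariant under right multiplication by a generating set is constant. -/
lemma eq_of_invariant {X : Type*} (hS : closure S = ⊤) (f : Γ → X)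
    (hf : ∀ s ∈ S, ∀ g, f (g * s) = f g) (g : Γ) : f g = f 1 := by
  let T : Subgroup Γ :=
    { carrier := {t | ∀ g, f (g * t) = f g}
      one_mem' := by intro g; simp
      mul_mem' := by
        intro a b ha hb g
        rw [← mul_assoc, hb, ha]
      inv_mem' := by
        intro a ha g
        have := ha (g * a⁻¹)
        rw [inv_mul_cancel_right] at this
        exact this.symm }
  have hT : (⊤ : Subgroup Γ) ≤ T := by
    rw [← hS, closure_le]
    intro s hs
    exact hf s hs
  have := hT (mem_top g) 1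
  rw [one_mul] at this
  exact this

end Ball

section Data
variable {Γ B M : Type*} [Group Γ] [Group B] [AddCommGroup M] [DistribMulAction B M]

/-- Right shift of `B`-valued functions. -/
def shiftG (s : Γ) : (Γ → B) →* (Γ → B) where
  toFun x := fun g => x (g * s)
  map_one' := rfl
  map_mul' _ _ := rfl

/-- Right shift of `M`-valued functions. -/
def shiftM (s : Γ) : (Γ → M) →+ (Γ → M) where
  toFun x := fun g => x (g * s)
  map_zero' := rfl
  map_add' _ _ := rfl

@[simp] lemma shiftG_apply (s : Γ) (x : Γ → B) (g : Γ) : shiftG s x g = x (g * s) := rfl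
@[simp] lemma shiftM_apply (s : Γ) (x : Γ → M) (g : Γ) : shiftM s x g = x (g * s) := rfl

variable {k : Type*} (p : k → Γ →* B)

/-- The group of `B`-valued functions generated by the constants and the homomorphisms `p i`. -/
def P0 : Subgroup (Γ → B) :=
  closure (Set.range (fun (b : B) (_ : Γ) => b) ∪ Set.range (fun i => (p i : Γ → B)))

lemma const_mem_P0 (b : B) : (fun _ : Γ => b) ∈ P0 p :=
  subset_closure (Or.inl ⟨b, rfl⟩)

lemma proj_mem_P0 (i : k) : (p i : Γ → B) ∈ P0 p :=
  subset_closure (Or.inr ⟨i, rfl⟩)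

lemma shift_mem_P0 (s : Γ) (x : Γ → B) (hx : x ∈ P0 p) : shiftG s x ∈ P0 p := by
  have : P0 p ≤ (P0 p).comap (shiftG s) := by
    rw [P0, closure_le]
    rintro y (⟨b, rfl⟩ | ⟨i, rfl⟩)
    · exact const_mem_P0 p b
    · change shiftG s (p i) ∈ P0 p
      have e : shiftG s (p i : Γ → B) = (p i : Γ → B) * (fun _ => p i s) := by
        funext g
        simp [shiftG_apply, map_mul]
      rw [e]
      exact (P0 p).mul_mem (proj_mem_P0 p i) (const_mem_P0 p _)
  exact this hx

/-- The shift on `P0`. -/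
def shiftP (s : Γ) : ↥(P0 p) →* ↥(P0 p) :=
  ((shiftG s).comp (P0 p).subtype).codRestrict (P0 p)
    (fun x => shift_mem_P0 p s x.1 x.2)

@[simp] lemma shiftP_apply (s : Γ) (x : ↥(P0 p)) (g : Γ) :
    (shiftP p s x : Γ → B) g = (x : Γ → B) (g * s) := rfl

lemma chain_P0 (c : ℕ) (hc : (⊤ : Subgroup B).lowerCentralSeries c = ⊥) (S : Set Γ) :
    Chain (fun s : S => shiftP p (s : Γ)) (c + 2) ⊤ := by
  let C : Subgroup (↥(P0 p)) :=
    { carrier := {x | ∃ b : B, (x : Γ → B) = fun _ => b}
      one_mem' := ⟨1, rfl⟩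
      mul_mem' := by
        rintro x y ⟨a, ha⟩ ⟨b, hb⟩
        refine ⟨a * b, ?_⟩
        rw [Subgroup.coe_mul, ha, hb]; rfl
      inv_mem' := by
        rintro x ⟨a, ha⟩
        refine ⟨a⁻¹, ?_⟩
        rw [Subgroup.coe_inv, ha]; rfl }
  refine chain_top c ?_ C ?_ (Set.range fun i => (⟨p i, proj_mem_P0 p i⟩ : ↥(P0 p))) ?_ ?_
  · rw [eq_bot_iff]
    intro x hx
    rw [mem_bot]
    apply Subtype.ext
    funext g
    let ev : ↥(P0 p) →* B := (Pi.evalMonoidHom (fun _ : Γ => B) g).comp (P0 p).subtype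
    have h1 : ev x ∈ ((⊤ : Subgroup (↥(P0 p))).lowerCentralSeries c).map ev :=
      mem_map_of_mem ev hx
    rw [map_lowerCentralSeries] at h1
    have h2 : ev x ∈ (⊤ : Subgroup B).lowerCentralSeries c :=
      lowerCentralSeries_mono (G := B) c (le_top (a := (⊤ : Subgroup (↥(P0 p))).map ev)) h1
    rw [hc, mem_bot] at h2
    exact h2
  · rintro x ⟨b, hb⟩ s
    apply Subtype.ext
    funext g
    rw [shiftP_apply, hb]
  · rintro _ ⟨i, rfl⟩ s
    refine ⟨p i (s : Γ), ?_⟩
    funext g
    change (p i g)⁻¹ * p i (g * s) = p i s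
    rw [map_mul, inv_mul_cancel_left]
  · rw [eq_top_iff]
    rintro ⟨x, hx⟩ _
    refine closure_induction (p := fun x hx => (⟨x, hx⟩ : ↥(P0 p)) ∈ Subgroup.closure _) ?_ ?_ ?_ ?_ hx
    · rintro y (⟨b, rfl⟩ | ⟨i, rfl⟩)
      · exact subset_closure (Or.inl ⟨b, rfl⟩)
      · exact subset_closure (Or.inr ⟨i, rfl⟩)
    · exact Subgroup.one_mem _
    · intro x y hx hy h1 h2
      exact Subgroup.mul_mem _ h1 h2
    · intro x hx h1
      exact Subgroup.inv_mem _ h1

/-- Evaluation of killing strategies. -/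
lemma eval_kill {S : Set Γ} (hS : closure S = ⊤) {H : Subgroup (↥(P0 p))} {Z : Set (Γ → M)}
    {m : ℕ} (hZ : ∀ f ∈ Z, (∀ g ∈ ball S m, f g = 0) → f = 0) :
    ∀ N (f : Γ → M), Kill (fun s : S => shiftM (s : Γ)) H Z N f →
      (∀ g ∈ ball S (m + N), f g = 0) → f = 0 := by
  intro N
  induction N with
  | zero => intro f hf h; exact hZ f hf h
  | succ N ih =>
    intro f hf h
    obtain ⟨x, hx, hf⟩ := hf
    have h0 : ∀ s : S, shiftM (s : Γ) (x • f) - x • f = 0 := by
      intro s
      apply ih _ (hf s)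
      intro g hg
      have h1 : f g = 0 := h g (ball_mono (by omega) hg)
      have h2 : f (g * s) = 0 := h _ (mul_mem_ball hg s.2)
      change (x : Γ → B) (g * s) • f (g * s) - (x : Γ → B) g • f g = 0
      rw [h1, h2, smul_zero, smul_zero, sub_zero]
    have hinv : ∀ s ∈ S, ∀ g, (x • f) (g * s) = (x • f) g := by
      intro s hs g
      have := congrFun (h0 ⟨s, hs⟩) g
      exact sub_eq_zero.mp this
    have hz : x • f = 0 := by
      funext g
      rw [eq_of_invariant hS _ hinv g]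
      change (x : Γ → B) 1 • f 1 = 0
      rw [h 1 (one_mem_ball _), smul_zero]
    have : x⁻¹ • (x • f) = 0 := by rw [hz, smul_zero]
    rwa [inv_smul_smul] at this

/-- Evaluation of elements of a chain. -/
lemma eval_chain {S : Set Γ} (hS : closure S = ⊤) {i : ℕ} {K : Subgroup (↥(P0 p))}
    (hK : Chain (fun s : S => shiftP p (s : Γ)) i K) :
    ∀ x ∈ K, (∀ g ∈ ball S i, (x : Γ → B) g = 1) → x = 1 := by
  induction hK with
  | bot => intro x hx _; simpa using hx
  | @step i H K _ _ hstep ih =>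
    intro x hx h
    have h0 : ∀ s : S, x⁻¹ * shiftP p (s : Γ) x = 1 := by
      intro s
      apply ih _ (hstep x hx s)
      intro g hg
      change ((x : Γ → B) g)⁻¹ * (x : Γ → B) (g * s) = 1
      rw [h g (ball_mono (by omega) hg), h _ (mul_mem_ball hg s.2)]
      simp
    have hinv : ∀ s ∈ S, ∀ g, (x : Γ → B) (g * s) = (x : Γ → B) g := by
      intro s hs g
      have h1 := congrArg (fun y : ↥(P0 p) => (y : Γ → B) g) (h0 ⟨s, hs⟩)
      have h2 : ((x : Γ → B) g)⁻¹ * (x : Γ → B) (g * s) = 1 := h1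
      exact (inv_mul_eq_one.mp h2).symm
    apply Subtype.ext
    funext g
    rw [eq_of_invariant hS _ hinv g, h 1 (one_mem_ball _)]
    rfl

end Data

end Pool.Agent.BBG
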