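import Pool.Agent.BBG.Chain

/-!
The killing calculus: a function of the form `∑ xᵢ • aᵢ + r` is killed by a bounded number of
difference operators, each preceded by the multiplication with a suitable element.
-/

namespace Pool.Agent.BBG

section Kill
variable {P : Type*} [Group P] {F : Type*} [AddCommGroup F] [DistribMulAction P F] {ι : Type*}

/-- `Kill τ H Z N f`: `f` can be brought into `Z` by `N` rounds; in each round one multiplies by
an element of `H` (chosen by us) and then applies the difference operator of an index `s`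
(chosen by an adversary). -/
def Kill (τ : ι → F →+ F) (H : Subgroup P) (Z : Set F) : ℕ → F → Prop
  | 0, f => f ∈ Z
  | N + 1, f => ∃ x ∈ H, ∀ s, Kill τ H Z N (τ s (x • f) - x • f)

/-- `Comb X Y Z n f`: `f` is a sum of at most `n` terms `x • y` with `x ∈ X`, `y ∈ Y` and of an
element of `Z`. -/
inductive Comb (X : Set P) (Y Z : Set F) : ℕ → F → Prop
  | nil (n : ℕ) {r : F} : r ∈ Z → Comb X Y Z n r
  | cons {n : ℕ} {x : P} {y f : F} : x ∈ X → y ∈ Y → Comb X Y Z n f →
      Comb X Y Z (n + 1) (x • y + f)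

lemma Comb.mono {X X' : Set P} {Y Y' Z Z' : Set F} (hX : X ⊆ X') (hY : Y ⊆ Y') (hZ : Z ⊆ Z')
    {n m : ℕ} (hnm : n ≤ m) {f : F} (h : Comb X Y Z n f) : Comb X' Y' Z' m f := by
  induction h generalizing m with
  | nil n hr => exact Comb.nil m (hZ hr)
  | cons hx hy _ ih =>
    obtain ⟨m', rfl⟩ : ∃ m', m = m' + 1 := ⟨m - 1, by omega⟩
    exact Comb.cons (hX hx) (hY hy) (ih (by omega))

lemma Comb.smul {X : Set P} {Y Z Z' : Set F} (h : P) (hX : ∀ x ∈ X, h * x ∈ X)
    (hZ : ∀ z ∈ Z, h • z ∈ Z') {n : ℕ} {f : F} (hf : Comb X Y Z n f) :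
    Comb X Y Z' n (h • f) := by
  induction hf with
  | nil n hr => exact Comb.nil n (hZ _ hr)
  | cons hx hy _ ih =>
    rw [smul_add, smul_smul]
    exact Comb.cons (hX _ hx) hy ih

lemma Comb.add {X : Set P} {Y Z Z' Z'' : Set F} (hZ : ∀ z ∈ Z, ∀ z' ∈ Z', z + z' ∈ Z'')
    {n m : ℕ} {f g : F} (hf : Comb X Y Z n f) (hg : Comb X Y Z' m g) :
    Comb X Y Z'' (n + m) (f + g) := by
  induction hf with
  | @nil n r hr =>
    induction hg with
    | nil m hr' => exact Comb.nil _ (hZ _ hr _ hr')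
    | @cons m x y g hx hy _ ih =>
      have : r + (x • y + g) = x • y + (r + g) := by abel
      rw [this, ← Nat.add_assoc]
      exact Comb.cons hx hy ih
  | @cons n x y f hx hy _ ih =>
    rw [Nat.add_right_comm n 1 m, add_assoc (x • y) f g]
    exact Comb.cons hx hy ih

lemma Comb.neg {X : Set P} {Y Z Z' : Set F} (hY : ∀ y ∈ Y, -y ∈ Y) (hZ : ∀ z ∈ Z, -z ∈ Z')
    {n : ℕ} {f : F} (hf : Comb X Y Z n f) : Comb X Y Z' n (-f) := by
  induction hf with
  | nil n hr => exact Comb.nil n (hZ _ hr)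
  | cons hx hy _ ih =>
    rw [neg_add, ← smul_neg]
    exact Comb.cons hx (hY _ hy) ih

variable {σ : ι → P →* P} {τ : ι → F →+ F}

/-- The data of a size-indexed class of rest terms and a set of atoms. -/
structure Frame (σ : ι → P →* P) (τ : ι → F →+ F) (A : Set F) (R : ℕ → Set F) : Prop where
  compat : ∀ s (x : P) (f : F), τ s (x • f) = σ s x • τ s f
  mono : ∀ {m n : ℕ}, m ≤ n → R m ⊆ R n
  zero : 0 ∈ R 0
  add : ∀ {m n : ℕ} {f g : F}, f ∈ R m → g ∈ R n → f + g ∈ R (m + n)
  neg : ∀ {m : ℕ} {f : F}, f ∈ R m → -f ∈ R m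
  smul : ∀ {m : ℕ} {f : F} (x : P), f ∈ R m → x • f ∈ R m
  shift : ∀ {m : ℕ} {f : F} (s : ι), f ∈ R m → τ s f ∈ R m
  atomNeg : ∀ {a : F}, a ∈ A → -a ∈ A
  atom : ∀ {a : F} (s : ι), a ∈ A → τ s a - a ∈ R 1

/-- The class of functions `∑_{t < q} xₜ • aₜ + r` with `xₜ ∈ H`, `aₜ ∈ A`, `r ∈ R q`. -/
def Fn (H : Subgroup P) (A : Set F) (R : ℕ → Set F) (q : ℕ) : Set F :=
  {f | Comb (H : Set P) A (R q) q f}

variable {A : Set F} {R : ℕ → Set F}

lemma Fn.mono (fr : Frame σ τ A R) {H K : Subgroup P} (hHK : H ≤ K) {m n : ℕ} (hmn : m ≤ n) :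
    Fn H A R m ⊆ Fn K A R n :=
  fun _ hf => Comb.mono hHK subset_rfl (fr.mono hmn) hmn hf

lemma Fn.smul (fr : Frame σ τ A R) {H : Subgroup P} {q : ℕ} {f : F} {x : P} (hx : x ∈ H)
    (hf : f ∈ Fn H A R q) : x • f ∈ Fn H A R q :=
  Comb.smul x (fun _ hy => H.mul_mem hx hy) (fun _ hz => fr.smul x hz) hf

lemma Fn.neg (fr : Frame σ τ A R) {H : Subgroup P} {q : ℕ} {f : F}
    (hf : f ∈ Fn H A R q) : -f ∈ Fn H A R q :=
  Comb.neg (fun _ hy => fr.atomNeg hy) (fun _ hz => fr.neg hz) hf

lemma Fn.add (fr : Frame σ τ A R) {H : Subgroup P} {m n : ℕ} {f g : F}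
    (hf : f ∈ Fn H A R m) (hg : g ∈ Fn H A R n) : f + g ∈ Fn H A R (m + n) :=
  Comb.add (fun _ hz _ hz' => fr.add hz hz') hf hg

lemma Fn.rest {H : Subgroup P} {q : ℕ} {f : F} (hf : f ∈ R q) :
    f ∈ Fn H A R q := Comb.nil q hf

lemma Fn.shift (fr : Frame σ τ A R) {H : Subgroup P} (hH : ∀ y ∈ H, ∀ s, σ s y ∈ H)
    {q : ℕ} {f : F} (hf : f ∈ Fn H A R q) (s : ι) : τ s f ∈ Fn H A R (2 * q) := by
  have key : ∀ m n : ℕ, ∀ f, Comb (H : Set P) A (R m) n f →
      Comb (H : Set P) A (R (m + n)) n (τ s f) := by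
    intro m n f hf
    induction hf with
    | nil n hr => exact Comb.nil n (fr.mono (by omega) (fr.shift s hr))
    | cons hx hy _ ih =>
      rename_i n x y g _
      have e : τ s (x • y + g) = σ s x • y + (σ s x • (τ s y - y) + τ s g) := by
        rw [map_add, fr.compat, smul_sub]; abel
      rw [e]
      refine Comb.cons (hH x hx s) hy ?_
      have h1 : σ s x • (τ s y - y) ∈ R 1 := fr.smul _ (fr.atom s hy)
      have h2 : Comb (H : Set P) A (R 1) 0 (σ s x • (τ s y - y)) := Comb.nil 0 h1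
      have h3 := Comb.add (Z'' := R (m + (n + 1)))
        (fun z hz z' hz' => fr.mono (by omega) (fr.add hz hz')) h2 ih
      rwa [Nat.zero_add] at h3
  have h := key q q f hf
  exact Comb.mono subset_rfl subset_rfl (fr.mono (by omega)) (by omega) h

lemma Kill.smul (H : Subgroup P) {Z : Set F} (hZ : ∀ z ∈ Z, ∀ x ∈ H, x • z ∈ Z) {x : P}
    (hx : x ∈ H) {N : ℕ} {f : F} (h : Kill τ H Z N (x • f)) : Kill τ H Z N f := by
  cases N with
  | zero =>
    have := hZ _ h x⁻¹ (H.inv_mem hx)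
    rwa [inv_smul_smul] at this
  | succ N =>
    obtain ⟨y, hy, h⟩ := h
    refine ⟨y * x, H.mul_mem hy hx, fun s => ?_⟩
    have := h s
    rwa [smul_smul] at this

/-- Difference operators on combinations over a chain step. -/
lemma Comb.diff (fr : Frame σ τ A R) {H K : Subgroup P}
    (hH : ∀ y ∈ H, ∀ s, σ s y ∈ H)
    (hstep : ∀ y ∈ K, ∀ s, y⁻¹ * σ s y ∈ H) {n q : ℕ} {g : F}
    (hg : Comb (K : Set P) (Fn H A R q) (R q) n g) (s : ι) :
    Comb (K : Set P) (Fn H A R (3 * q)) (R (3 * q)) n (τ s g - g) := by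
  induction hg with
  | nil n hr =>
    refine Comb.nil n ?_
    rw [sub_eq_add_neg]
    exact fr.mono (by omega) (fr.add (fr.shift s hr) (fr.neg hr))
  | cons hy hf _ ih =>
    rename_i n y f g' _
    have e : τ s (y • f + g') - (y • f + g') =
        y • ((y⁻¹ * σ s y) • τ s f + -f) + (τ s g' - g') := by
      rw [map_add, fr.compat, smul_add, smul_smul, mul_inv_cancel_left, smul_neg]; abel
    rw [e]
    refine Comb.cons hy ?_ ih
    have h1 := Fn.smul fr (hstep y hy s) (Fn.shift fr hH hf s)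
    exact Fn.mono fr le_rfl (by omega) (Fn.add fr h1 (Fn.neg fr hf))

/-- Bounding function of the inner induction. -/
def inner (G : ℕ → ℕ × ℕ) : ℕ → ℕ → ℕ → ℕ × ℕ
  | 0, q', q => G (q + q')
  | N + 1, q', q => ((inner G N q' (3 * q)).1 + 1, (inner G N q' (3 * q)).2)

/-- Bounding function of the outer induction. -/
def outer (G : ℕ → ℕ × ℕ) : ℕ → ℕ → ℕ × ℕ
  | 0, q => (0, q)
  | n + 1, q => inner (outer G n) (G q).1 (G q).2 q

/-- Bounding function for a chain of length `i`. -/
def bd : ℕ → ℕ → ℕ × ℕ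
  | 0, q => (1, 3 * q)
  | i + 1, q => outer (bd i) q (q + 1)

lemma inner_spec (fr : Frame σ τ A R) {H K : Subgroup P} (hHK : H ≤ K)
    (hH : ∀ y ∈ H, ∀ s, σ s y ∈ H)
    (hstep : ∀ y ∈ K, ∀ s, y⁻¹ * σ s y ∈ H) {n : ℕ} (G : ℕ → ℕ × ℕ)
    (hG : ∀ q g, Comb (K : Set P) (Fn H A R q) (R q) n g → Kill τ K (R (G q).2) (G q).1 g) :
    ∀ N q' q g h, Comb (K : Set P) (Fn H A R q) (R q) n g → Kill τ H (R q') N h →
      Kill τ K (R (inner G N q' q).2) (inner G N q' q).1 (g + h) := by
  intro N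
  induction N with
  | zero =>
    intro q' q g h hg hh
    change Kill τ K (R (G (q + q')).2) (G (q + q')).1 (g + h)
    apply hG
    have h0 : Comb (K : Set P) (Fn H A R (q + q')) (R q') 0 h := Comb.nil 0 hh
    have hg' : Comb (K : Set P) (Fn H A R (q + q')) (R q) n g :=
      Comb.mono subset_rfl (Fn.mono fr le_rfl (by omega)) subset_rfl le_rfl hg
    exact Comb.add (fun z hz z' hz' => fr.add hz hz') hg' h0
  | succ N ih =>
    intro q' q g h hg hh
    obtain ⟨x, hx, hh⟩ := hh
    refine ⟨x, hHK hx, fun s => ?_⟩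
    have e : τ s (x • (g + h)) - x • (g + h) =
        (τ s (x • g) - x • g) + (τ s (x • h) - x • h) := by
      rw [smul_add, map_add]; abel
    rw [e]
    apply ih
    · apply Comb.diff fr hH hstep
      exact Comb.smul x (fun _ hy => K.mul_mem (hHK hx) hy) (fun _ hz => fr.smul x hz) hg
    · exact hh s

lemma outer_spec (fr : Frame σ τ A R) {H K : Subgroup P} (hHK : H ≤ K)
    (hH : ∀ y ∈ H, ∀ s, σ s y ∈ H)
    (hstep : ∀ y ∈ K, ∀ s, y⁻¹ * σ s y ∈ H) (G : ℕ → ℕ × ℕ)
    (hG : ∀ q f, f ∈ Fn H A R q → Kill τ H (R (G q).2) (G q).1 f) :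
    ∀ n q g, Comb (K : Set P) (Fn H A R q) (R q) n g →
      Kill τ K (R (outer G n q).2) (outer G n q).1 g := by
  intro n
  induction n with
  | zero =>
    intro q g hg
    cases hg with
    | nil _ hr => exact hr
  | succ n ih =>
    intro q g hg
    change Kill τ K (R (inner (outer G n) (G q).1 (G q).2 q).2)
      (inner (outer G n) (G q).1 (G q).2 q).1 g
    cases hg with
    | nil _ hr =>
      have h := inner_spec fr hHK hH hstep (n := n) (outer G n) ih (G q).1 (G q).2 q 0 g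
        (Comb.nil n (fr.mono (Nat.zero_le _) fr.zero)) (hG q g (Fn.rest hr))
      rwa [zero_add] at h
    | cons hy hf hg' =>
      rename_i y f g'
      apply Kill.smul K (fun z hz x _ => fr.smul x hz) (x := y⁻¹) (K.inv_mem hy)
      have e : y⁻¹ • (y • f + g') = y⁻¹ • g' + f := by
        rw [smul_add, inv_smul_smul, add_comm]
      rw [e]
      apply inner_spec fr hHK hH hstep (n := n) (outer G n) ih
      · exact Comb.smul _ (fun _ hz => K.mul_mem (K.inv_mem hy) hz) (fun _ hz => fr.smul _ hz) hg'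
      · exact hG q f hf

/-- Every combination over a subgroup that ends a chain can be killed, in a bounded number of
rounds, up to a rest of bounded size. -/
theorem kill_chain (fr : Frame σ τ A R) {i : ℕ} {K : Subgroup P} (hK : Chain σ i K) :
    ∀ q f, f ∈ Fn K A R q → Kill τ K (R (bd i q).2) (bd i q).1 f := by
  induction hK with
  | bot =>
    intro q f hf
    refine ⟨1, Subgroup.one_mem _, fun s => ?_⟩
    rw [one_smul]
    have key : ∀ m n : ℕ, ∀ f, Comb ((⊥ : Subgroup P) : Set P) A (R m) n f →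
        τ s f - f ∈ R (n + 2 * m) := by
      intro m n f hf
      induction hf with
      | nil n hr =>
        rw [sub_eq_add_neg]
        exact fr.mono (by omega) (fr.add (fr.shift s hr) (fr.neg hr))
      | cons hx hy _ ih =>
        rename_i n x y g _
        have hx1 : x = 1 := by simpa using hx
        subst hx1
        have e : τ s ((1 : P) • y + g) - ((1 : P) • y + g) = (τ s y - y) + (τ s g - g) := by
          rw [one_smul, map_add]; abel
        rw [e]
        exact fr.mono (by omega) (fr.add (fr.atom s hy) ih)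
    have := key q q f hf
    have e : q + 2 * q = 3 * q := by omega
    rw [e] at this
    exact this
  | step hchain hHK hstep ih =>
    rename_i i H K
    intro q f hf
    change Kill τ K (R (outer (bd i) q (q + 1)).2) (outer (bd i) q (q + 1)).1 f
    apply outer_spec fr hHK hchain.shift_mem hstep (bd i) ih
    refine Comb.mono subset_rfl ?_ (fr.mono (by omega)) le_rfl hf
    intro a ha
    have h1 : Comb (H : Set P) A (R 0) 1 ((1 : P) • a + 0) :=
      Comb.cons H.one_mem ha (Comb.nil 0 fr.zero)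
    rw [one_smul, add_zero] at h1
    exact Comb.mono subset_rfl subset_rfl (fr.mono (by omega)) (by omega) h1

end Kill

end Pool.Agent.BBG
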