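import Pool.Agent.BBG.Eval

/-!
Laws in abelian-by-nilpotent groups can be tested on balls of bounded radius.
-/

namespace Pool.Agent.BBG

open Subgroup

section Frames
variable {G B M : Type*} [Group G] [Group B] [AddCommGroup M] [DistribMulAction B M]
variable {k : ℕ} (π : G →* B) (δ : G → M)

/-- The coordinate homomorphisms `G^k → B`. -/
def pr (i : Fin k) : (Fin k → G) →* B := π.comp (Pi.evalMonoidHom (fun _ => G) i)

@[simp] lemma pr_apply (i : Fin k) (g : Fin k → G) : pr π i g = π (g i) := rfl

/-- Constant functions. -/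
def A1 (Γ M : Type*) : Set (Γ → M) := {f | ∃ a : M, f = fun _ => a}

/-- No rest. -/
def R1 (Γ M : Type*) [AddCommGroup M] : ℕ → Set (Γ → M) := fun _ => {0}

lemma compat' (S : Set (Fin k → G)) (s : S) (x : ↥(P0 (pr (k := k) π))) (f : (Fin k → G) → M) :
    shiftM (s : Fin k → G) (x • f) =
      shiftP (pr π) (s : Fin k → G) x • shiftM (s : Fin k → G) f := rfl

lemma frame1 (S : Set (Fin k → G)) :
    Frame (fun s : S => shiftP (pr (k := k) π) (s : Fin k → G))
      (fun s : S => shiftM (M := M) (s : Fin k → G)) (A1 (Fin k → G) M) (R1 (Fin k → G) M) where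
  compat := fun s x f => compat' π S s x f
  mono := fun _ => subset_rfl
  zero := rfl
  add := by
    rintro m n f g hf hg
    rw [R1, Set.mem_singleton_iff] at *
    rw [hf, hg, add_zero]
  neg := by
    rintro m f hf
    rw [R1, Set.mem_singleton_iff] at *
    rw [hf, neg_zero]
  smul := by
    rintro m f x hf
    rw [R1, Set.mem_singleton_iff] at *
    rw [hf, smul_zero]
  shift := by
    rintro m f s hf
    rw [R1, Set.mem_singleton_iff] at *
    rw [hf, map_zero]
  atomNeg := by
    rintro a ⟨b, rfl⟩
    exact ⟨-b, rfl⟩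
  atom := by
    rintro a s ⟨b, rfl⟩
    rw [R1, Set.mem_singleton_iff]
    funext g
    change b - b = 0
    exact sub_self b

/-- The atoms `± δ(gᵢ)`. -/
def A2 : Set ((Fin k → G) → M) :=
  {f | ∃ i : Fin k, f = (fun g => δ (g i)) ∨ f = (fun g => - δ (g i))}

/-- The rest class of the second stage: the functions of the first stage. -/
def R2 (M : Type*) [AddCommGroup M] [DistribMulAction B M] (q : ℕ) : Set ((Fin k → G) → M) :=
  Fn (⊤ : Subgroup (↥(P0 (pr (k := k) π)))) (A1 (Fin k → G) M) (R1 (Fin k → G) M) q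

lemma frame2 (hδ : ∀ g h, δ (g * h) = δ g + π g • δ h) (S : Set (Fin k → G)) :
    Frame (fun s : S => shiftP (pr (k := k) π) (s : Fin k → G))
      (fun s : S => shiftM (M := M) (s : Fin k → G)) (A2 δ) (R2 π M) := by
  have fr := frame1 (M := M) π S
  have hterm : ∀ (i : Fin k) (a : M), (fun g : Fin k → G => π (g i) • a) ∈ R2 π M 1 := by
    intro i a
    have h1 : Comb ((⊤ : Subgroup (↥(P0 (pr (k := k) π)))) : Set (↥(P0 (pr (k := k) π))))
        (A1 (Fin k → G) M) (R1 (Fin k → G) M 1) (0 + 1)
        ((⟨pr π i, proj_mem_P0 _ i⟩ : ↥(P0 (pr (k := k) π))) • (fun _ : Fin k → G => a) + 0) :=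
      Comb.cons (mem_top _) ⟨a, rfl⟩ (Comb.nil 0 rfl)
    rw [add_zero] at h1
    exact h1
  refine
  { compat := fun s x f => compat' π S s x f
    mono := fun h => Fn.mono fr le_rfl h
    zero := Comb.nil 0 rfl
    add := fun hf hg => Fn.add fr hf hg
    neg := fun hf => Fn.neg fr hf
    smul := fun x hf => Fn.smul fr (mem_top x) hf
    shift := ?_
    atomNeg := ?_
    atom := ?_ }
  · intro m f s hf
    have key : ∀ n : ℕ, ∀ f,
        Comb ((⊤ : Subgroup (↥(P0 (pr (k := k) π)))) : Set (↥(P0 (pr (k := k) π))))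
          (A1 (Fin k → G) M) (R1 (Fin k → G) M m) n f →
        Comb ((⊤ : Subgroup (↥(P0 (pr (k := k) π)))) : Set (↥(P0 (pr (k := k) π))))
          (A1 (Fin k → G) M) (R1 (Fin k → G) M m) n (shiftM (s : Fin k → G) f) := by
      intro n f hf
      induction hf with
      | nil n hr => exact Comb.nil n (fr.shift s hr)
      | @cons n x y g hx hy _ ih =>
        rw [map_add, compat' π S s x y]
        refine Comb.cons (mem_top _) ?_ ih
        obtain ⟨a, rfl⟩ := hy
        exact ⟨a, rfl⟩
    exact key m f hf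
  · rintro a ⟨i, rfl | rfl⟩
    · exact ⟨i, Or.inr rfl⟩
    · refine ⟨i, Or.inl ?_⟩
      funext g
      change - - δ (g i) = δ (g i)
      exact neg_neg _
  · rintro a s ⟨i, rfl | rfl⟩
    · have e : shiftM (s : Fin k → G) (fun g : Fin k → G => δ (g i)) - (fun g => δ (g i)) =
          fun g : Fin k → G => π (g i) • δ ((s : Fin k → G) i) := by
        funext g
        change δ (g i * (s : Fin k → G) i) - δ (g i) = _
        rw [hδ, add_sub_cancel_left]
      rw [e]
      exact hterm i _
    · have e : shiftM (s : Fin k → G) (fun g : Fin k → G => - δ (g i)) - (fun g => - δ (g i)) =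
          fun g : Fin k → G => π (g i) • (- δ ((s : Fin k → G) i)) := by
        funext g
        change - δ (g i * (s : Fin k → G) i) - - δ (g i) = _
        rw [hδ, smul_neg]; abel
      rw [e]
      exact hterm i _

lemma word_mem (hδ : ∀ g h, δ (g * h) = δ g + π g • δ h) :
    ∀ L : List (Fin k × Bool),
      (fun g : Fin k → G => δ ((L.map fun x => cond x.2 (g x.1) (g x.1)⁻¹).prod)) ∈
        Fn (⊤ : Subgroup (↥(P0 (pr (k := k) π)))) (A2 δ) (R2 π M) L.length := by
  have fr := frame2 π δ hδ (∅ : Set (Fin k → G))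
  have h1 : δ 1 = 0 := by
    have := hδ 1 1
    rw [mul_one, map_one, one_smul] at this
    exact left_eq_add.mp this
  intro L
  induction L with
  | nil =>
    have : (fun g : Fin k → G =>
        δ ((([] : List (Fin k × Bool)).map fun x => cond x.2 (g x.1) (g x.1)⁻¹).prod)) = 0 := by
      funext g
      simpa using h1
    rw [this]
    exact Comb.nil 0 fr.zero
  | cons x L ih =>
    obtain ⟨i, b⟩ := x
    let xi : ↥(P0 (pr (k := k) π)) := ⟨pr π i, proj_mem_P0 _ i⟩
    cases b with
    | true =>
      have e : (fun g : Fin k → G =>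
          δ ((((i, true) :: L).map fun x => cond x.2 (g x.1) (g x.1)⁻¹).prod)) =
          (1 : ↥(P0 (pr (k := k) π))) • (fun g : Fin k → G => δ (g i)) +
          xi • (fun g : Fin k → G =>
            δ ((L.map fun x => cond x.2 (g x.1) (g x.1)⁻¹).prod)) := by
        funext g
        rw [one_smul]
        change δ ((((i, true) :: L).map fun x => cond x.2 (g x.1) (g x.1)⁻¹).prod) =
          δ (g i) + π (g i) • δ ((L.map fun x => cond x.2 (g x.1) (g x.1)⁻¹).prod)
        rw [List.map_cons, List.prod_cons, hδ]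
        rfl
      rw [e]
      have h2 := Fn.smul fr (mem_top xi) ih
      exact Comb.cons (mem_top _) ⟨i, Or.inl rfl⟩
        (Comb.mono subset_rfl subset_rfl (fr.mono (Nat.le_succ _)) le_rfl h2)
    | false =>
      have hinv : ∀ g : G, δ g⁻¹ = (π g)⁻¹ • (- δ g) := by
        intro g
        have := hδ g⁻¹ g
        rw [inv_mul_cancel, h1, map_inv] at this
        rw [smul_neg]
        exact (neg_eq_of_add_eq_zero_left this.symm).symm
      have e : (fun g : Fin k → G =>
          δ ((((i, false) :: L).map fun x => cond x.2 (g x.1) (g x.1)⁻¹).prod)) =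
          xi⁻¹ • (fun g : Fin k → G => - δ (g i)) +
          xi⁻¹ • (fun g : Fin k → G =>
            δ ((L.map fun x => cond x.2 (g x.1) (g x.1)⁻¹).prod)) := by
        funext g
        change δ ((((i, false) :: L).map fun x => cond x.2 (g x.1) (g x.1)⁻¹).prod) =
          (π (g i))⁻¹ • (- δ (g i)) +
          (π (g i))⁻¹ • δ ((L.map fun x => cond x.2 (g x.1) (g x.1)⁻¹).prod)
        rw [List.map_cons, List.prod_cons, hδ]
        change δ (g i)⁻¹ + π (g i)⁻¹ • _ = _
        rw [hinv, map_inv]
      rw [e]
      have h2 := Fn.smul fr (mem_top xi⁻¹) ih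
      exact Comb.cons (mem_top _) ⟨i, Or.inr rfl⟩
        (Comb.mono subset_rfl subset_rfl (fr.mono (Nat.le_succ _)) le_rfl h2)

lemma lift_eq (u : FreeGroup (Fin k)) (g : Fin k → G) :
    FreeGroup.lift g u = (u.toWord.map fun x => cond x.2 (g x.1) (g x.1)⁻¹).prod := by
  conv_lhs => rw [← FreeGroup.mk_toWord (x := u)]
  exact FreeGroup.lift_mk

lemma word_mem_P0 (L : List (Fin k × Bool)) :
    (fun g : Fin k → G => π ((L.map fun x => cond x.2 (g x.1) (g x.1)⁻¹).prod)) ∈
      P0 (pr (k := k) π) := by
  induction L with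
  | nil =>
    have : (fun g : Fin k → G =>
        π ((([] : List (Fin k × Bool)).map fun x => cond x.2 (g x.1) (g x.1)⁻¹).prod)) =
        1 := by
      funext g; simp
    rw [this]
    exact one_mem _
  | cons x L ih =>
    obtain ⟨i, b⟩ := x
    cases b with
    | true =>
      have e : (fun g : Fin k → G =>
          π ((((i, true) :: L).map fun x => cond x.2 (g x.1) (g x.1)⁻¹).prod)) =
          (pr π i : (Fin k → G) → B) * (fun g : Fin k → G =>
            π ((L.map fun x => cond x.2 (g x.1) (g x.1)⁻¹).prod)) := by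
        funext g
        rw [List.map_cons, List.prod_cons, map_mul]
        rfl
      rw [e]
      exact mul_mem (proj_mem_P0 _ i) ih
    | false =>
      have e : (fun g : Fin k → G =>
          π ((((i, false) :: L).map fun x => cond x.2 (g x.1) (g x.1)⁻¹).prod)) =
          (pr π i : (Fin k → G) → B)⁻¹ * (fun g : Fin k → G =>
            π ((L.map fun x => cond x.2 (g x.1) (g x.1)⁻¹).prod)) := by
        funext g
        rw [List.map_cons, List.prod_cons, map_mul]
        change π (g i)⁻¹ * _ = (π (g i))⁻¹ * _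
        rw [map_inv]
      rw [e]
      exact mul_mem (inv_mem (proj_mem_P0 _ i)) ih

/-- The radius for words of length `q` and class `c`. -/
def radius (c q : ℕ) : ℕ :=
  (c + 2) + ((bd (c + 2) (bd (c + 2) q).2).1 + (bd (c + 2) q).1)

theorem main_abs (hδ : ∀ g h, δ (g * h) = δ g + π g • δ h)
    (hinj : ∀ g, π g = 1 → δ g = 0 → g = 1) (c : ℕ)
    (hc : (⊤ : Subgroup B).lowerCentralSeries c = ⊥) (u : FreeGroup (Fin k))
    (S : Set (Fin k → G)) (hS : closure S = ⊤)
    (h : ∀ g ∈ ball S (radius c u.toWord.length), FreeGroup.lift g u = 1) :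
    ∀ g : Fin k → G, FreeGroup.lift g u = 1 := by
  set q := u.toWord.length with hq
  have hchain := chain_P0 (pr (k := k) π) c hc S
  have fr1 := frame1 (M := M) π S
  have fr2 := frame2 π δ hδ S
  -- the first stage
  have hZ1 : ∀ q' : ℕ, ∀ f ∈ R2 (k := k) π M q', (∀ g ∈ ball S (bd (c + 2) q').1, f g = 0) →
      f = 0 := by
    intro q' f hf h0
    have hk := kill_chain fr1 hchain q' f hf
    refine eval_kill (pr π) hS (m := 0) ?_ _ f hk ?_
    · intro f hf _
      exact hf
    · rwa [Nat.zero_add]
  -- the second stage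
  have hM : (fun g : Fin k → G => δ (FreeGroup.lift g u)) = 0 := by
    have hk := kill_chain fr2 hchain q _ (word_mem π δ hδ u.toWord)
    have e : (fun g : Fin k → G => δ (FreeGroup.lift g u)) =
        (fun g : Fin k → G => δ ((u.toWord.map fun x => cond x.2 (g x.1) (g x.1)⁻¹).prod)) := by
      funext g
      rw [lift_eq]
    rw [e]
    refine eval_kill (pr π) hS (m := (bd (c + 2) (bd (c + 2) q).2).1) (hZ1 _) _ _ hk ?_
    intro g hg
    have h1 : δ 1 = 0 := by
      have := hδ 1 1
      rw [mul_one, map_one, one_smul] at this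
      exact left_eq_add.mp this
    rw [← lift_eq, h g (ball_mono (by unfold radius; omega) hg), h1]
  have hB : ∀ g : Fin k → G, π (FreeGroup.lift g u) = 1 := by
    have hx := eval_chain (pr π) hS hchain ⟨_, word_mem_P0 π u.toWord⟩ (mem_top _) (by
      intro g hg
      change π ((u.toWord.map fun x => cond x.2 (g x.1) (g x.1)⁻¹).prod) = 1
      rw [← lift_eq, h g (ball_mono (by unfold radius; omega) hg), map_one])
    intro g
    have := congrArg (fun y : ↥(P0 (pr (k := k) π)) => (y : (Fin k → G) → B) g) hx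
    rw [lift_eq]
    exact this
  intro g
  exact hinj _ (hB g) (congrFun hM g)

end Frames

end Pool.Agent.BBG
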